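import Pool.Agent.W610.HY.Stm2

/-!
# Project HY (helper610), part ABV: the two integrals annihilate each other across the commutant
(follows the proof of helper150 for Banach algebras)
-/

set_option autoImplicit false

namespace Pool.Agent.W98.HY.ABV

open Pool.Agent.W610.HY
open MeasureTheory Set Metric

lemma res_id {𝒜 : Type} [NormedRing 𝒜] [NormedAlgebra ℂ 𝒜] (a : 𝒜) {z x : ℂ}
    (hz : z ∈ resolventSet ℂ a) (hx : x ∈ resolventSet ℂ a) (hne : x - z ≠ 0) :
    resolvent a z * resolvent a x = (x - z)⁻¹ • (resolvent a z - resolvent a x) := by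
  obtain ⟨U, hU⟩ := hz
  obtain ⟨V, hV⟩ := hx
  have e1 : resolvent a z = (↑U⁻¹ : 𝒜) := by
    rw [resolvent, ← hU, Ring.inverse_unit]
  have e2 : resolvent a x = (↑V⁻¹ : 𝒜) := by
    rw [resolvent, ← hV, Ring.inverse_unit]
  rw [e1, e2]
  have h1 : (V : 𝒜) - U = (x - z) • (1 : 𝒜) := by
    rw [hU, hV, Algebra.algebraMap_eq_smul_one, Algebra.algebraMap_eq_smul_one, sub_smul]
    abel
  have h2 : (↑U⁻¹ : 𝒜) - ↑V⁻¹ = (x - z) • ((↑U⁻¹ : 𝒜) * ↑V⁻¹) := by
    calc (↑U⁻¹ : 𝒜) - ↑V⁻¹ = ↑U⁻¹ * ((V : 𝒜) - U) * ↑V⁻¹ := by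
          rw [mul_sub, sub_mul, mul_assoc, Units.mul_inv, mul_one, Units.inv_mul, one_mul]
      _ = (x - z) • ((↑U⁻¹ : 𝒜) * ↑V⁻¹) := by
          rw [h1, mul_smul_comm, mul_one, smul_mul_assoc]
  rw [h2, smul_smul, inv_mul_cancel₀ hne, one_smul]

/-- everything that commutes with `a` commutes with the resolvent -/
lemma comm_res {𝒜 : Type} [NormedRing 𝒜] [NormedAlgebra ℂ 𝒜] (a s : 𝒜) (h : s * a = a * s)
    (z : ℂ) : s * resolvent a z = resolvent a z * s := by
  have h1 : Commute s (algebraMap ℂ 𝒜 z - a) := by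
    have h2 : Commute s a := h
    have h3 : Commute s (algebraMap ℂ 𝒜 z) := (Algebra.commutes z s).symm
    exact h3.sub_right h2
  by_cases hz : IsUnit (algebraMap ℂ 𝒜 z - a)
  · obtain ⟨U, hU⟩ := hz
    rw [resolvent, ← hU, Ring.inverse_unit]
    rw [← hU] at h1
    exact h1.units_inv_right
  · rw [resolvent, Ring.inverse_non_unit _ hz, mul_zero, zero_mul]

/-- the resolvent is strongly measurable -/
lemma meas {𝒜 : Type} [NormedRing 𝒜] [NormedAlgebra ℂ 𝒜] [CompleteSpace 𝒜] (a : 𝒜) :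
    StronglyMeasurable (fun z : ℂ => resolvent a z) := by
  have ho : IsOpen (resolventSet ℂ a) := spectrum.isOpen_resolventSet a
  have hc : Continuous (fun z : resolventSet ℂ a => resolvent a (z : ℂ)) := by
    rw [continuous_iff_continuousAt]
    intro z
    have h1 : ContinuousAt (resolvent a) (z : ℂ) :=
      (spectrum.hasDerivAt_resolvent_const_left z.2).continuousAt
    exact h1.comp continuous_subtype_val.continuousAt
  have h2 : (fun z : ℂ => resolvent a z) = Function.extend (Subtype.val : resolventSet ℂ a → ℂ)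
      (fun z => resolvent a (z : ℂ)) (fun _ => 0) := by
    funext z
    by_cases hz : z ∈ resolventSet ℂ a
    · have := Function.Injective.extend_apply (f := (Subtype.val : resolventSet ℂ a → ℂ))
        Subtype.val_injective (fun z => resolvent a (z : ℂ)) (fun _ => 0) ⟨z, hz⟩
      exact this.symm
    · rw [Function.extend_apply' _ _ _ (by rintro ⟨w, rfl⟩; exact hz w.2)]
      exact Ring.inverse_non_unit _ hz
  rw [h2]
  exact (MeasurableEmbedding.subtype_coe ho.measurableSet).stronglyMeasurable_extend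
    hc.stronglyMeasurable stronglyMeasurable_const

lemma norm_cm (c : ℂ) (r θ : ℝ) (hr : 0 < r) : ‖circleMap c r θ - c‖ = r := by
  rw [circleMap_sub_center, norm_circleMap_zero, abs_of_pos hr]

theorem main : ABV := by
  intro X _ _ _ T S v y c₁ c₂ r₁ r₂ h₁ h₂ hST G₁ G₂ hr
  set μ : Measure ℝ := volume.restrict (Ioc (0:ℝ) (2 * Real.pi)) with hμ
  set d : ℝ := ‖c₁ - c₂‖ - r₁ - r₂ with hd
  have hdpos : 0 < d := by rw [hd]; linarith
  set z : ℝ → ℂ := circleMap c₁ r₁ with hz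
  set x : ℝ → ℂ := circleMap c₂ r₂ with hx
  set u : ℝ → ℂ := circleMap 0 1 with hu
  have hzc : ∀ θ, ‖z θ - c₁‖ = r₁ := fun θ => norm_cm c₁ r₁ θ G₁.pos
  have hxc : ∀ φ, ‖x φ - c₂‖ = r₂ := fun φ => norm_cm c₂ r₂ φ G₂.pos
  have hun : ∀ θ, ‖u θ‖ = 1 := by
    intro θ
    rw [hu, norm_circleMap_zero, abs_one]
  have hdist : ∀ θ φ, d ≤ ‖x φ - z θ‖ := by
    intro θ φ
    have h1 : c₁ - c₂ = (x φ - c₂) - (z θ - c₁) - (x φ - z θ) := by ring
    have h2 : ‖c₁ - c₂‖ ≤ ‖x φ - c₂‖ + ‖z θ - c₁‖ + ‖x φ - z θ‖ := by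
      rw [h1]
      exact (norm_sub_le _ _).trans (by gcongr; exact norm_sub_le _ _)
    rw [hzc, hxc] at h2
    rw [hd]
    linarith
  have hxz : ∀ θ φ, x φ - z θ ≠ 0 := by
    intro θ φ h
    have := hdist θ φ
    rw [h, norm_zero] at this
    linarith
  have hzm : Measurable z := (continuous_circleMap c₁ r₁).measurable
  have hxm : Measurable x := (continuous_circleMap c₂ r₂).measurable
  have hum : Measurable u := (continuous_circleMap 0 1).measurable
  have hRz : StronglyMeasurable (fun θ => resolvent T (z θ)) := (meas T).comp_measurable hzm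
  have hRx : StronglyMeasurable (fun φ => resolvent T (x φ)) := (meas T).comp_measurable hxm
  -- the vector and the functional
  have hF : StronglyMeasurable (fun θ => resolvent T (z θ) v) := by
    have hc : Continuous (fun A : X →L[ℂ] X => A v) := by fun_prop
    exact hc.comp_stronglyMeasurable hRz
  have hH : StronglyMeasurable (fun φ => y.comp (resolvent T (x φ))) := by
    have hc : Continuous (fun A : X →L[ℂ] X => y.comp A) :=
      continuous_const.clm_comp continuous_id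
    exact hc.comp_stronglyMeasurable hRx
  set p : ℝ → ℂ := fun θ => y (S (resolvent T (z θ) v)) with hp
  set q : ℝ → ℂ := fun φ => y (resolvent T (x φ) (S v)) with hq
  have hpm : StronglyMeasurable p := by
    have hc : Continuous (fun w : X => y (S w)) := by fun_prop
    exact hc.comp_stronglyMeasurable hF
  have hqm : StronglyMeasurable q := by
    have hc : Continuous (fun A : X →L[ℂ] ℂ => A (S v)) := by fun_prop
    exact hc.comp_stronglyMeasurable hH
  have hpn : ∀ θ, ‖p θ‖ ≤ ‖y‖ * ‖S‖ * ‖resolvent T (z θ) v‖ := by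
    intro θ
    calc ‖p θ‖ ≤ ‖y‖ * ‖S (resolvent T (z θ) v)‖ := y.le_opNorm _
      _ ≤ ‖y‖ * (‖S‖ * ‖resolvent T (z θ) v‖) := by gcongr; exact S.le_opNorm _
      _ = _ := by ring
  have hqn : ∀ φ, ‖q φ‖ ≤ ‖y.comp (resolvent T (x φ))‖ * ‖S v‖ := by
    intro φ
    exact (y.comp (resolvent T (x φ))).le_opNorm (S v)
  -- the scalar kernel
  set k : ℝ → ℝ → ℂ := fun θ φ => (h₁ θ * u θ) * (h₂ φ * (u φ / (x φ - z θ))) with hk
  have hkm : Measurable (fun p : ℝ × ℝ => k p.1 p.2) := by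
    rw [hk]
    have m1 : Measurable (fun p : ℝ × ℝ => p.1) := measurable_fst
    have m2 : Measurable (fun p : ℝ × ℝ => p.2) := measurable_snd
    have a1 := G₁.meas.comp m1
    have a2 := hum.comp m1
    have a3 := G₂.meas.comp m2
    have a4 := hum.comp m2
    have a5 := hxm.comp m2
    have a6 := hzm.comp m1
    exact (a1.mul a2).mul (a3.mul (a4.div (a5.sub a6)))
  have hkn : ∀ θ φ, ‖k θ φ‖ ≤ ‖h₁ θ‖ * ‖h₂ φ‖ * d⁻¹ := by
    intro θ φ
    rw [hk]
    simp only [norm_mul, norm_div, hun, mul_one, one_div]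
    rw [← mul_assoc]
    gcongr
    exact hdist θ φ
  -- integrability on the product
  have hK1 : Integrable (fun t : ℝ × ℝ => k t.1 t.2 * p t.1) (μ.prod μ) := by
    apply Integrable.of_bound (C := ‖y‖ * ‖S‖ * d⁻¹)
    · exact (hkm.aestronglyMeasurable).mul
        ((hpm.comp_measurable measurable_fst).aestronglyMeasurable)
    · have b1 := Measure.quasiMeasurePreserving_fst (μ := μ) (ν := μ) |>.ae G₁.bound
      have b2 := Measure.quasiMeasurePreserving_snd (μ := μ) (ν := μ) |>.ae G₂.le_one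
      filter_upwards [b1, b2] with t hp1 hp2
      rw [norm_mul]
      have n1 := norm_nonneg (resolvent T (z t.1) v)
      have n2 := norm_nonneg (h₁ t.1)
      have n3 := norm_nonneg (h₂ t.2)
      have n4 := inv_nonneg.2 hdpos.le
      calc ‖k t.1 t.2‖ * ‖p t.1‖ ≤ (‖h₁ t.1‖ * ‖h₂ t.2‖ * d⁻¹) *
            (‖y‖ * ‖S‖ * ‖resolvent T (z t.1) v‖) := by
              gcongr
              · exact hkn _ _
              · exact hpn _
        _ = (‖h₁ t.1‖ * ‖resolvent T (z t.1) v‖) * ‖h₂ t.2‖ * (‖y‖ * ‖S‖ * d⁻¹) := by ring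
        _ ≤ 1 * 1 * (‖y‖ * ‖S‖ * d⁻¹) := by
            gcongr
        _ = ‖y‖ * ‖S‖ * d⁻¹ := by ring
  have hK2 : Integrable (fun t : ℝ × ℝ => k t.1 t.2 * q t.2) (μ.prod μ) := by
    apply Integrable.of_bound (C := ‖S v‖ * d⁻¹)
    · exact (hkm.aestronglyMeasurable).mul
        ((hqm.comp_measurable measurable_snd).aestronglyMeasurable)
    · have b1 := Measure.quasiMeasurePreserving_fst (μ := μ) (ν := μ) |>.ae G₁.le_one
      have b2 := Measure.quasiMeasurePreserving_snd (μ := μ) (ν := μ) |>.ae G₂.bound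
      filter_upwards [b1, b2] with t hp1 hp2
      rw [norm_mul]
      have n1 := norm_nonneg (y.comp (resolvent T (x t.2)))
      have n2 := norm_nonneg (h₁ t.1)
      have n3 := norm_nonneg (h₂ t.2)
      have n4 := inv_nonneg.2 hdpos.le
      calc ‖k t.1 t.2‖ * ‖q t.2‖ ≤ (‖h₁ t.1‖ * ‖h₂ t.2‖ * d⁻¹) *
            (‖y.comp (resolvent T (x t.2))‖ * ‖S v‖) := by
              gcongr
              · exact hkn _ _
              · exact hqn _
        _ = ‖h₁ t.1‖ * (‖h₂ t.2‖ * ‖y.comp (resolvent T (x t.2))‖) * (‖S v‖ * d⁻¹) := by ring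
        _ ≤ 1 * 1 * (‖S v‖ * d⁻¹) := by
            gcongr
        _ = ‖S v‖ * d⁻¹ := by ring
  -- the two factors
  set f₁ : ℝ → X := fun θ => (h₁ θ * u θ) • resolvent T (z θ) v with hf₁
  set f₂ : ℝ → X →L[ℂ] ℂ := fun φ => (h₂ φ * u φ) • y.comp (resolvent T (x φ)) with hf₂
  have hi₁ : Integrable f₁ μ := by
    apply Integrable.of_bound (C := 1)
    · exact ((G₁.meas.mul hum).aestronglyMeasurable).smul hF.aestronglyMeasurable
    · filter_upwards [G₁.bound] with θ hθ
      rw [hf₁]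
      simp only [norm_smul, norm_mul, hun, mul_one]
      exact hθ
  have hi₂ : Integrable f₂ μ := by
    apply Integrable.of_bound (C := 1)
    · exact ((G₂.meas.mul hum).aestronglyMeasurable).smul hH.aestronglyMeasurable
    · filter_upwards [G₂.bound] with θ hθ
      rw [hf₂]
      simp only [norm_smul, norm_mul, hun, mul_one]
      exact hθ
  have hA₁ : IV (fun z => resolvent T z v) c₁ r₁ h₁ = ∫ θ, f₁ θ ∂μ := by
    unfold IV
    rw [intervalIntegral.integral_of_le Real.two_pi_pos.le]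
  have hA₂ : IV (fun z => y.comp (resolvent T z)) c₂ r₂ h₂ = ∫ φ, f₂ φ ∂μ := by
    unfold IV
    rw [intervalIntegral.integral_of_le Real.two_pi_pos.le]
  have hprod : (∫ φ, f₂ φ ∂μ) (S (∫ θ, f₁ θ ∂μ)) = ∫ θ, ∫ φ, f₂ φ (S (f₁ θ)) ∂μ ∂μ := by
    have e1 : (∫ φ, f₂ φ ∂μ) (S (∫ θ, f₁ θ ∂μ)) =
        ((∫ φ, f₂ φ ∂μ).comp S) (∫ θ, f₁ θ ∂μ) := rfl
    rw [e1, ← ContinuousLinearMap.integral_comp_comm _ hi₁]
    congr 1
    funext θ
    rw [ContinuousLinearMap.comp_apply, ContinuousLinearMap.integral_apply hi₂]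
  have hae : (fun t : ℝ × ℝ => f₂ t.2 (S (f₁ t.1))) =ᵐ[μ.prod μ]
      fun t => k t.1 t.2 * p t.1 - k t.1 t.2 * q t.2 := by
    have b1 := Measure.quasiMeasurePreserving_fst (μ := μ) (ν := μ) |>.ae G₁.res
    have b2 := Measure.quasiMeasurePreserving_snd (μ := μ) (ν := μ) |>.ae G₂.res
    filter_upwards [b1, b2] with t hp1 hp2
    have c1 : S (resolvent T (z t.1) v) = resolvent T (z t.1) (S v) := by
      have := comm_res T S hST (z t.1)
      exact congrArg (fun A : X →L[ℂ] X => A v) this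
    have c2 := res_id T hp2 hp1 (sub_ne_zero.2 (fun h => hxz t.1 t.2 (by
      have h' : z t.1 = x t.2 := h
      rw [h', sub_self])))
    have c3 : resolvent T (x t.2) (resolvent T (z t.1) (S v)) =
        (z t.1 - x t.2)⁻¹ • (resolvent T (x t.2) (S v) - resolvent T (z t.1) (S v)) :=
      congrArg (fun A : X →L[ℂ] X => A (S v)) c2
    simp only [hf₁, hf₂, hk, hp, hq]
    rw [map_smul, map_smul, smul_apply, ContinuousLinearMap.comp_apply,
      c1, c3, map_smul, map_sub]
    simp only [smul_eq_mul]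
    have h1 : z t.1 - x t.2 = -(x t.2 - z t.1) := by ring
    rw [h1, inv_neg, div_eq_mul_inv]
    ring
  have hG : Integrable (fun t : ℝ × ℝ => f₂ t.2 (S (f₁ t.1))) (μ.prod μ) :=
    (hK1.sub hK2).congr hae.symm
  have hv2 : ∀ θ, (∫ φ, h₂ φ * (u φ / (x φ - z θ)) ∂μ) = 0 := by
    intro θ
    have h1 : r₂ < ‖z θ - c₂‖ := by
      have h2 : c₁ - c₂ = (z θ - c₂) - (z θ - c₁) := by ring
      have h3 : ‖c₁ - c₂‖ ≤ ‖z θ - c₂‖ + ‖z θ - c₁‖ := by
        rw [h2]
        exact norm_sub_le _ _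
      rw [hzc] at h3
      linarith
    have := G₂.van (z θ) h1
    rw [intervalIntegral.integral_of_le Real.two_pi_pos.le] at this
    exact this
  have hv1 : ∀ φ, (∫ θ, h₁ θ * (u θ / (z θ - x φ)) ∂μ) = 0 := by
    intro φ
    have h1 : r₁ < ‖x φ - c₁‖ := by
      have h2 : c₁ - c₂ = (x φ - c₂) - (x φ - c₁) := by ring
      have h3 : ‖c₁ - c₂‖ ≤ ‖x φ - c₂‖ + ‖x φ - c₁‖ := by
        rw [h2]
        exact norm_sub_le _ _
      rw [hxc] at h3
      linarith
    have := G₁.van (x φ) h1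
    rw [intervalIntegral.integral_of_le Real.two_pi_pos.le] at this
    exact this
  rw [hA₁, hA₂, hprod]
  have hFub : ∫ θ, ∫ φ, f₂ φ (S (f₁ θ)) ∂μ ∂μ = ∫ t, f₂ t.2 (S (f₁ t.1)) ∂(μ.prod μ) :=
    (integral_prod _ hG).symm
  rw [hFub, integral_congr_ae hae, integral_sub hK1 hK2, integral_prod _ hK1,
    integral_prod_symm _ hK2]
  have z1 : ∀ θ, ∫ φ, k θ φ * p θ ∂μ = 0 := by
    intro θ
    rw [integral_mul_const]
    have : ∫ φ, k θ φ ∂μ = 0 := by
      simp only [hk]
      rw [integral_const_mul, hv2, mul_zero]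
    rw [this, zero_mul]
  have z2 : ∀ φ, ∫ θ, k θ φ * q φ ∂μ = 0 := by
    intro φ
    rw [integral_mul_const]
    have : ∫ θ, k θ φ ∂μ = 0 := by
      have e : (fun θ => k θ φ) = fun θ => (-(h₂ φ * u φ)) * (h₁ θ * (u θ / (z θ - x φ))) := by
        funext θ
        simp only [hk]
        have h1 : z θ - x φ = -(x φ - z θ) := by ring
        rw [h1, div_neg, div_eq_mul_inv, div_eq_mul_inv]
        ring
      rw [e, integral_const_mul, hv1, mul_zero]
    rw [this, zero_mul]
  simp only [z1, z2, integral_zero, sub_zero]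

end Pool.Agent.W98.HY.ABV
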